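import Pool.Agent.K1H1.DP.HallDual

/-! Duality for the assignment problem, without the parity condition (proof of
K1H1/DP/HallDual.lean). -/

set_option autoImplicit false

namespace Pool.Agent.K1H88.DW

open Pool.Agent.K1H88.DP Pool.Agent.K1H1.DP

theorem dualN (I : Type) [Fintype I] [DecidableEq I] (b : I → I → ℝ) (e : I → I) (M : ℝ)
    (h3 : 3 ≤ Fintype.card I) (hsym : ∀ i j, b i j = b j i) (he : ∀ i, e (e i) = i)
    (hbe : ∀ i j, b (e i) (e j) = b i j)
    (hM : ∀ π : Equiv.Perm I, (∀ i, π i ≠ i) → ∑ i, b i (π i) ≤ M) :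
    ∃ γ : I → ℝ, (∀ i j, i ≠ j → b i j ≤ γ i + γ j) ∧ 2 * ∑ i, γ i ≤ M ∧
      ∀ i, γ (e i) = γ i := by
  classical
  obtain ⟨γ, hγ, hmin⟩ := exists_min b h3
  -- tight pairs
  let t : I → Finset I := fun i => Finset.univ.filter fun j => i ≠ j ∧ b i j = γ i + γ j
  have hall : ∃ f : I → I, Function.Injective f ∧ ∀ x, f x ∈ t x := by
    rw [← Finset.all_card_le_biUnion_card_iff_exists_injective]
    intro A
    by_contra hcon
    push Not at hcon
    obtain ⟨N, hN⟩ : ∃ N, N = A.biUnion t := ⟨_, rfl⟩
    rw [← hN] at hcon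
    have hev : ∀ᶠ ε : ℝ in nhdsWithin 0 (Set.Ioi 0), ∀ i j, i ≠ j → b i j ≠ γ i + γ j →
        2 * ε ≤ γ i + γ j - b i j := by
      rw [Filter.eventually_all]
      intro i
      rw [Filter.eventually_all]
      intro j
      by_cases hij : i ≠ j ∧ b i j ≠ γ i + γ j
      · have h1 : 0 < γ i + γ j - b i j := by
          have := lt_of_le_of_ne (hγ i j hij.1) hij.2
          linarith
        have h2 : Filter.Tendsto (fun ε : ℝ => 2 * ε) (nhdsWithin 0 (Set.Ioi 0)) (nhds 0) := by
          have : Filter.Tendsto (fun ε : ℝ => 2 * ε) (nhds 0) (nhds (2 * 0)) :=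
            (continuous_const.mul continuous_id).tendsto 0
          rw [mul_zero] at this
          exact this.mono_left nhdsWithin_le_nhds
        filter_upwards [h2.eventually_le_const h1] with ε hε _ _
        exact hε
      · refine Filter.Eventually.of_forall fun ε h1 h2 => absurd ⟨h1, h2⟩ hij
    obtain ⟨ε, hε, hε0⟩ := (hev.and self_mem_nhdsWithin).exists
    have h1 := hmin (fun i => γ i - (if i ∈ A then ε else 0) + (if i ∈ N then ε else 0)) (by
      intro i j hij
      by_cases ht : b i j = γ i + γ j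
      · have h2 : i ∈ A → j ∈ N := by
          intro hi
          rw [hN, Finset.mem_biUnion]
          exact ⟨i, hi, Finset.mem_filter.2 ⟨Finset.mem_univ _, hij, ht⟩⟩
        have h4 : j ∈ A → i ∈ N := by
          intro hj
          rw [hN, Finset.mem_biUnion]
          refine ⟨j, hj, Finset.mem_filter.2 ⟨Finset.mem_univ _, hij.symm, ?_⟩⟩
          rw [hsym, ht, add_comm]
        have h5 : (if i ∈ A then ε else 0) ≤ (if j ∈ N then ε else 0) := by
          by_cases hi : i ∈ A
          · rw [if_pos hi, if_pos (h2 hi)]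
          · rw [if_neg hi]
            split_ifs <;> linarith
        have h6 : (if j ∈ A then ε else 0) ≤ (if i ∈ N then ε else 0) := by
          by_cases hj : j ∈ A
          · rw [if_pos hj, if_pos (h4 hj)]
          · rw [if_neg hj]
            split_ifs <;> linarith
        rw [ht]
        linarith
      · have h2 := hε i j hij ht
        have h5 : (if i ∈ A then ε else 0) ≤ ε := by split_ifs <;> linarith
        have h6 : (if j ∈ A then ε else 0) ≤ ε := by split_ifs <;> linarith
        have h7 : 0 ≤ (if i ∈ N then ε else 0) := by split_ifs <;> linarith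
        have h8 : 0 ≤ (if j ∈ N then ε else 0) := by split_ifs <;> linarith
        linarith)
    rw [Finset.sum_add_distrib, Finset.sum_sub_distrib, Finset.sum_ite_mem, Finset.sum_ite_mem,
      Finset.univ_inter, Finset.univ_inter, Finset.sum_const, Finset.sum_const, nsmul_eq_mul,
      nsmul_eq_mul] at h1
    have h2 : (N.card : ℝ) < A.card := by exact_mod_cast hcon
    nlinarith
  obtain ⟨f, hf, hf'⟩ := hall
  let π : Equiv.Perm I := Equiv.ofBijective f (Finite.injective_iff_bijective.1 hf)
  have hπ : ∀ i, π i = f i := fun i => rfl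
  have hsum : 2 * ∑ i, γ i ≤ M := by
    have h1 := hM π (fun i hi => (Finset.mem_filter.1 (hf' i)).2.1 (by rw [← hπ, hi]))
    have h2 : ∑ i, b i (π i) = ∑ i, γ i + ∑ i, γ (π i) := by
      rw [← Finset.sum_add_distrib]
      exact Finset.sum_congr rfl fun i _ => (Finset.mem_filter.1 (hf' i)).2.2
    rw [Equiv.sum_comp π γ] at h2
    linarith
  let E : Equiv.Perm I := Function.Involutive.toPerm e he
  have hE : ∑ i, γ (e i) = ∑ i, γ i := Equiv.sum_comp E γ
  refine ⟨fun i => (γ i + γ (e i)) / 2, fun i j hij => ?_, ?_, fun i => ?_⟩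
  · have h1 := hγ i j hij
    have h2 := hγ (e i) (e j) (fun h => hij (E.injective h))
    rw [hbe] at h2
    linarith
  · rw [← Finset.sum_div, Finset.sum_add_distrib, hE]
    linarith
  · simp only [he]
    ring

end Pool.Agent.K1H88.DW
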