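import Pool.Agent.K1H88.DW.Stm
import Pool.Agent.K1H88.DW.Dual
import Pool.Agent.K1H88.DF.Asm2
import Pool.Agent.K1H10.DP.FinTrans
import Pool.Agent.K1H45.DF.Card

/-! Project DW: cardinalities, invariance of the height, duality at infinity. -/

set_option autoImplicit false
set_option linter.unusedSectionVars false

namespace Pool.Agent.K1H88.DW

open Module NumberField Function
open Pool.Agent.K1H88.DP (Kp pl vn cont cj cj_cj pl_mul pl_cj pl_swap pl_self)
open Pool.Agent.K1H88.DF (EmbU deg Distinct Same InSlab pl_lin cjU sum_emb prod_emb)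

variable (F : Type) [Field F] [NumberField F] {ι : Type} [Fintype ι] (E : ι → Type)
  [∀ k, Field (E k)] [∀ k, NumberField (E k)] [∀ k, Algebra F (E k)] (a : ι → ℕ)

lemma sum_wt {K : Type} [Field K] [CharZero K] [IsAlgClosed K] (u : F →+* K) :
    ∑ i : EmbU F E u, a i.1.1 = tot F E a := by
  classical
  let eq : EmbU F E u ≃ Σ k, {s : E k →+* K // s.comp (algebraMap F (E k)) = u} :=
    { toFun := fun i => ⟨i.1.1, ⟨i.1.2, i.2⟩⟩
      invFun := fun j => ⟨⟨j.1, j.2.1⟩, j.2.2⟩
      left_inv := fun _ => rfl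
      right_inv := fun _ => rfl }
  have e0 := Fintype.sum_equiv eq (fun i => a i.1.1) (fun j => a j.1) (fun i => rfl)
  rw [e0, Fintype.sum_sigma]
  unfold tot
  refine Finset.sum_congr rfl fun k _ => ?_
  show ∑ _y : {s : E k →+* K // s.comp (algebraMap F (E k)) = u}, a k = a k * finrank F (E k)
  rw [Finset.sum_const, Finset.card_univ, smul_eq_mul, mul_comm]
  congr 1
  rw [← Nat.card_eq_fintype_card]
  exact K1H45.DF.card_fib F (E k) K u

lemma card_cop {K : Type} [Field K] [CharZero K] [IsAlgClosed K] (u : F →+* K) :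
    Fintype.card (Cop F E a u) = tot F E a := by
  rw [Fintype.card_sigma, ← sum_wt F E a u]
  exact Finset.sum_congr rfl fun i _ => Fintype.card_fin _

variable {a}

/-- a permutation which moves every copy to a copy of another embedding -/
lemma exists_perm {K : Type} [Field K] [CharZero K] [IsAlgClosed K] (u : F →+* K)
    (hbig : ∀ k, 2 * a k < tot F E a) : ∃ π : Equiv.Perm (Cop F E a u), ∀ s, s.1 ≠ (π s).1 := by
  classical
  refine K1H1.DP.t_HALL (Cop F E a u) (fun s t => s.1 = t.1)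
    ⟨fun _ => rfl, fun h => h.symm, fun h h' => h.trans h'⟩ fun s => ?_
  rw [card_cop]
  have h1 : Nat.card {t : Cop F E a u // s.1 = t.1} ≤ Nat.card (Fin (a s.1.1.1)) := by
    refine Nat.card_le_card_of_surjective
      (fun c : Fin (a s.1.1.1) => (⟨⟨s.1, c⟩, rfl⟩ : {t : Cop F E a u // s.1 = t.1})) ?_
    rintro ⟨⟨i, c⟩, h⟩
    obtain ⟨j, c'⟩ := s
    simp only at h
    subst h
    exact ⟨c, rfl⟩
  rw [Nat.card_eq_fintype_card (α := Fin (a s.1.1.1)), Fintype.card_fin] at h1
  have := hbig s.1.1.1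
  omega

section
variable {K : Type} [NormedField K] [CharZero K] (u : F →+* K)

theorem loc_lin (x y : ∀ k, E k) (a' b' c' d' : F) :
    loc F E a u (a' • x + b' • y) (c' • x + d' • y) =
      ‖u (a' * d' - b' * c')‖ ^ (Fintype.card (Cop F E a u)) * loc F E a u x y := by
  unfold loc
  rw [Real.mul_iSup_of_nonneg (by positivity)]
  congr 1
  funext π
  rw [← Finset.card_univ, ← Finset.prod_const, ← Finset.prod_mul_distrib]
  refine Finset.prod_congr rfl fun i _ => ?_
  rw [pl_lin, norm_mul]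

lemma le_loc (x y : ∀ k, E k) (π : Equiv.Perm (Cop F E a u)) :
    ∏ s, ‖pl E x y s.1.1 (π s).1.1‖ ≤ loc F E a u x y := by
  classical
  exact le_ciSup (f := fun π : Equiv.Perm (Cop F E a u) => ∏ s, ‖pl E x y s.1.1 (π s).1.1‖)
    (Set.finite_range _).bddAbove π

theorem loc_one [IsAlgClosed K] (x y : ∀ k, E k) (hbig : ∀ k, 2 * a k < tot F E a)
    (h : ∀ i j : EmbU F E u, i ≠ j → ‖pl E x y i.1 j.1‖ = 1) : loc F E a u x y = 1 := by
  classical
  obtain ⟨π, hπ⟩ := exists_perm F E u hbig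
  refine le_antisymm ?_ ?_
  · refine ciSup_le ?_
    intro τ
    by_cases hf : ∀ s, s.1 ≠ (τ s).1
    · rw [Finset.prod_eq_one fun s _ => h s.1 (τ s).1 (hf s)]
    · push Not at hf
      obtain ⟨s, hs⟩ := hf
      rw [Finset.prod_eq_zero (Finset.mem_univ s)]
      · exact zero_le_one
      · rw [← hs]
        simp [pl]
  · have h1 : ∏ s, ‖pl E x y s.1.1 (π s).1.1‖ = 1 :=
      Finset.prod_eq_one fun s _ => h s.1 (π s).1 (hπ s)
    exact h1.symm.le.trans (le_loc F E u x y π)

end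

lemma loc_pos {x y : ∀ k, E k} (h : Distinct F E x y) (hbig : ∀ k, 2 * a k < tot F E a)
    (u : F →+* ℂ) : 0 < loc F E a u x y := by
  obtain ⟨π, hπ⟩ := exists_perm F E u hbig
  exact lt_of_lt_of_le (Finset.prod_pos fun s _ => norm_pos_iff.2 (h u s.1 (π s).1 (hπ s)))
    (le_loc F E u x y π)

/-- INV from TRANS and PF. -/
theorem t_INV (hT : DF.S_TRANS) (hP : DF.S_PF) : S_INV := by
  intro F _ _ ι _ E _ _ _ a x y hxy h3 ha hbig a' b' c' d' hD
  obtain ⟨-, hT2⟩ := hT F ι E x y hxy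
  have h1 := hP F _ hD
  have h2 := K1H10.DP.t_FIN F _ hD
  set D : F := a' * d' - b' * c' with hDdef
  have hcont : cont F D 0 = ∏ᶠ p : Nat.Primes, ∏ u : F →+* Kp p, ‖u D‖ := by
    unfold DP.cont
    refine finprod_congr fun p => Finset.prod_congr rfl fun u _ => ?_
    rw [map_zero, norm_zero]
    exact max_eq_left (norm_nonneg _)
  rw [hcont] at h1
  have h7 : HasFiniteMulSupport (fun p : Nat.Primes => ∏ u : F →+* Kp p, ‖u D‖) := by
    refine h2.subset ?_
    intro p hp
    by_contra hcon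
    apply hp
    refine Finset.prod_eq_one fun u _ => ?_
    by_contra h
    exact hcon ⟨u, h⟩
  have h6 : HasFiniteMulSupport
      (fun p : Nat.Primes => (∏ u : F →+* Kp p, ‖u D‖) ^ tot F E a) := by
    refine h7.subset ?_
    intro p hp hp2
    apply hp
    have : (∏ u : F →+* Kp p, ‖u D‖) = 1 := hp2
    show (∏ u : F →+* Kp p, ‖u D‖) ^ tot F E a = 1
    rw [this, one_pow]
  have h5 : HasFiniteMulSupport (fun p : Nat.Primes => ∏ u : F →+* Kp p, loc F E a u x y) := by
    refine hT2.subset ?_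
    intro p hp
    by_contra hcon
    apply hp
    refine Finset.prod_eq_one fun u _ => loc_one F E u x y hbig ?_
    intro i j hij
    by_contra h6
    exact hcon ⟨u, i, j, hij, h6⟩
  have e1 : ∀ p : Nat.Primes,
      ∏ u : F →+* Kp p, loc F E a u (a' • x + b' • y) (c' • x + d' • y) =
      (∏ u : F →+* Kp p, ‖u D‖) ^ tot F E a * ∏ u : F →+* Kp p, loc F E a u x y := by
    intro p
    rw [← Finset.prod_pow, ← Finset.prod_mul_distrib]
    refine Finset.prod_congr rfl fun u _ => ?_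
    rw [loc_lin, card_cop]
  have e0 : ∏ u : F →+* ℂ, loc F E a u (a' • x + b' • y) (c' • x + d' • y) =
      (∏ u : F →+* ℂ, ‖u D‖) ^ tot F E a * ∏ u : F →+* ℂ, loc F E a u x y := by
    rw [← Finset.prod_pow, ← Finset.prod_mul_distrib]
    refine Finset.prod_congr rfl fun u _ => ?_
    rw [loc_lin, card_cop]
  unfold ht
  congr 1
  rw [finprod_congr e1, finprod_mul_distrib h6 h5, ← finprod_pow h7, e0]
  set A := ∏ᶠ p : Nat.Primes, ∏ u : F →+* Kp p, ‖u D‖
  calc (∏ u : F →+* ℂ, ‖u D‖) ^ tot F E a * (∏ u : F →+* ℂ, loc F E a u x y) *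
        (A ^ tot F E a * ∏ᶠ p : Nat.Primes, ∏ u : F →+* Kp p, loc F E a u x y)
      = (A * ∏ u : F →+* ℂ, ‖u D‖) ^ tot F E a *
        ((∏ u : F →+* ℂ, loc F E a u x y) *
          ∏ᶠ p : Nat.Primes, ∏ u : F →+* Kp p, loc F E a u x y) := by ring
    _ = _ := by rw [h1, one_pow, one_mul]

/-- the duality at one embedding -/
lemma dual_one {x y : ∀ k, E k} (h : Distinct F E x y) (ha : ∀ k, 1 ≤ a k)
    (hbig : ∀ k, 2 * a k < tot F E a) (h3 : 3 ≤ tot F E a) (u : F →+* ℂ) :
    ∃ γ : EmbU F E u → ℝ, (∀ i j, i ≠ j → Real.log ‖pl E x y i.1 j.1‖ ≤ γ i + γ j) ∧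
      2 * ∑ i, a i.1.1 * γ i ≤ Real.log (loc F E a u x y) := by
  classical
  set G : ℝ := ∑ i : EmbU F E u, ∑ j : EmbU F E u, |Real.log ‖pl E x y i.1 j.1‖| with hG
  have hG0 : 0 ≤ G := Finset.sum_nonneg fun i _ => Finset.sum_nonneg fun j _ => abs_nonneg _
  have hGle : ∀ i j : EmbU F E u, Real.log ‖pl E x y i.1 j.1‖ ≤ G := by
    intro i j
    refine (le_abs_self _).trans ?_
    refine (Finset.single_le_sum (f := fun j : EmbU F E u => |Real.log ‖pl E x y i.1 j.1‖|)
      (fun j _ => abs_nonneg _) (Finset.mem_univ j)).trans ?_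
    exact Finset.single_le_sum
      (f := fun i : EmbU F E u => ∑ j : EmbU F E u, |Real.log ‖pl E x y i.1 j.1‖|)
      (fun i _ => Finset.sum_nonneg fun j _ => abs_nonneg _) (Finset.mem_univ i)
  set L : ℝ := Real.log (loc F E a u x y) with hL
  set M : ℝ := Fintype.card (Cop F E a u) * G + |L| with hM
  have hM0 : 0 ≤ M := by positivity
  obtain ⟨γ, h1, h2, -⟩ := dualN (Cop F E a u)
    (fun s t => if s.1 = t.1 then -M else Real.log ‖pl E x y s.1.1 t.1.1‖) id L
    (by rwa [card_cop]) (fun s t => by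
      by_cases hst : s.1 = t.1
      · rw [if_pos hst, if_pos hst.symm]
      · rw [if_neg hst, if_neg (Ne.symm hst), pl_swap E x y t.1.1 s.1.1, norm_neg])
    (fun s => rfl) (fun s t => rfl)
    (fun π hπ => by
      by_cases hs : ∀ s, s.1 ≠ (π s).1
      · have e1 : ∑ s, (if s.1 = (π s).1 then -M else Real.log ‖pl E x y s.1.1 (π s).1.1‖) =
            ∑ s, Real.log ‖pl E x y s.1.1 (π s).1.1‖ :=
          Finset.sum_congr rfl fun s _ => if_neg (hs s)
        rw [e1, ← Real.log_prod fun s _ => norm_ne_zero_iff.2 (h u s.1 (π s).1 (hs s))]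
        exact Real.log_le_log (Finset.prod_pos fun s _ => norm_pos_iff.2
          (h u s.1 (π s).1 (hs s))) (le_loc F E u x y π)
      · push Not at hs
        obtain ⟨s₀, hs₀⟩ := hs
        rw [← Finset.add_sum_erase _ _ (Finset.mem_univ s₀), if_pos hs₀]
        have e2 : ∑ s ∈ Finset.univ.erase s₀,
            (if s.1 = (π s).1 then -M else Real.log ‖pl E x y s.1.1 (π s).1.1‖) ≤
            ∑ s ∈ Finset.univ.erase s₀, G := by
          refine Finset.sum_le_sum fun s _ => ?_
          split_ifs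
          · linarith
          · exact hGle _ _
        rw [Finset.sum_const, nsmul_eq_mul] at e2
        have e3 : (((Finset.univ.erase s₀).card : ℕ) : ℝ) ≤ Fintype.card (Cop F E a u) := by
          exact_mod_cast Finset.card_le_univ _
        have e4 : (((Finset.univ.erase s₀).card : ℕ) : ℝ) * G ≤
            Fintype.card (Cop F E a u) * G := mul_le_mul_of_nonneg_right e3 hG0
        have e5 := neg_abs_le L
        linarith)
  have hne : ∀ i : EmbU F E u, Nonempty (Fin (a i.1.1)) := fun i =>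
    ⟨⟨0, by have := ha i.1.1; omega⟩⟩
  choose c hc using fun i : EmbU F E u =>
    haveI := hne i
    Finite.exists_min (fun c : Fin (a i.1.1) => γ ⟨i, c⟩)
  refine ⟨fun i => γ ⟨i, c i⟩, fun i j hij => ?_, ?_⟩
  · have := h1 ⟨i, c i⟩ ⟨j, c j⟩ (fun hcon => hij (congrArg Sigma.fst hcon))
    simpa only [if_neg hij] using this
  · refine le_trans ?_ h2
    rw [Fintype.sum_sigma]
    refine mul_le_mul_of_nonneg_left (Finset.sum_le_sum fun i _ => ?_) zero_le_two
    calc (a i.1.1 : ℝ) * γ ⟨i, c i⟩ = ∑ c' : Fin (a i.1.1), γ ⟨i, c i⟩ := by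
          rw [Finset.sum_const, Finset.card_univ, Fintype.card_fin, nsmul_eq_mul]
      _ ≤ ∑ c' : Fin (a i.1.1), γ ⟨i, c'⟩ := Finset.sum_le_sum fun c' _ => hc i c'

/-- The duality at infinity. -/
lemma dual_inf {x y : ∀ k, E k} (h : Distinct F E x y) (ha : ∀ k, 1 ≤ a k)
    (hbig : ∀ k, 2 * a k < tot F E a) (h3 : 3 ≤ tot F E a) :
    ∃ r : DP.Emb E ℂ → ℝ, (∀ i, 0 < r i) ∧ (∀ i, r (cj E i) = r i) ∧
      (∀ (u : F →+* ℂ) (i j : EmbU F E u), ‖pl E x y i.1 j.1‖ ≤ r i.1 * r j.1) ∧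
      (∏ i, r i ^ a i.1) ^ 2 ≤ ∏ u : F →+* ℂ, loc F E a u x y := by
  classical
  choose γ h1 h2 using dual_one F E h ha hbig h3
  obtain ⟨g, hg⟩ : ∃ g : DP.Emb E ℂ → ℝ, ∀ (u : F →+* ℂ) (i : EmbU F E u), g i.1 = γ u i := by
    refine ⟨fun i => γ (DF.res F E i) ⟨i, rfl⟩, fun u i => ?_⟩
    obtain ⟨i, rfl⟩ := i
    rfl
  refine ⟨fun i => Real.exp ((g i + g (cj E i)) / 2), fun i => Real.exp_pos _, fun i => ?_,
    fun u i j => ?_, ?_⟩
  · simp only [cj_cj]
    rw [add_comm]
  · by_cases hij : i = j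
    · rw [hij, pl_self, norm_zero]
      positivity
    · rw [← Real.exp_add, ← Real.log_le_iff_le_exp (norm_pos_iff.2 (h u i j hij))]
      have e1 := h1 u i j hij
      have hij' : cjU F E i ≠ cjU F E j := by
        intro hc
        apply hij
        have := congrArg (fun i => cj E i.1) hc
        simp only [cjU, cj_cj] at this
        exact Subtype.ext this
      have e2 := h1 _ (cjU F E i) (cjU F E j) hij'
      have e3 : ‖pl E x y (cjU F E i).1 (cjU F E j).1‖ = ‖pl E x y i.1 j.1‖ := by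
        simp only [cjU]
        rw [pl_cj, RCLike.norm_conj]
      rw [e3] at e2
      rw [← hg, ← hg] at e1 e2
      simp only [cjU] at e2
      linarith
  · have hl : ∀ u : F →+* ℂ, 0 < loc F E a u x y := loc_pos F E h hbig
    have e0 : ∏ i : DP.Emb E ℂ, Real.exp ((g i + g (cj E i)) / 2) ^ a i.1 =
        Real.exp (∑ i : DP.Emb E ℂ, a i.1 * ((g i + g (cj E i)) / 2)) := by
      rw [Real.exp_sum]
      exact Finset.prod_congr rfl fun i _ => (Real.exp_nat_mul _ _).symm
    rw [e0, ← Real.exp_nat_mul, ← Real.le_log_iff_exp_le (Finset.prod_pos fun u _ => hl u),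
      Real.log_prod (fun u _ => (hl u).ne')]
    have e1 : ∑ i : DP.Emb E ℂ, a i.1 * ((g i + g (cj E i)) / 2) = ∑ i, a i.1 * g i := by
      have e2 : ∑ i : DP.Emb E ℂ, (a i.1 : ℝ) * g (cj E i) = ∑ i, (a i.1 : ℝ) * g i :=
        Fintype.sum_equiv ⟨cj E, cj E, cj_cj E, cj_cj E⟩ _ _ fun i => rfl
      have e3 : ∑ i : DP.Emb E ℂ, a i.1 * ((g i + g (cj E i)) / 2) =
          (∑ i, a i.1 * g i + ∑ i, a i.1 * g (cj E i)) / 2 := by
        rw [← Finset.sum_add_distrib, Finset.sum_div]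
        exact Finset.sum_congr rfl fun i _ => by ring
      rw [e3, e2]
      ring
    rw [e1, sum_emb F E (fun i => (a i.1 : ℝ) * g i)]
    push_cast
    rw [Finset.mul_sum]
    refine Finset.sum_le_sum fun u _ => ?_
    have := h2 u
    simp only [hg]
    exact this

end Pool.Agent.K1H88.DW
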