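import Pool.Agent.K1H88.DW.Asm1

/-! The assembly of project DW. -/

set_option autoImplicit false
set_option linter.unusedSectionVars false

namespace Pool.Agent.K1H88.DW

open Module NumberField Function
open Pool.Agent.K1H88.DP (Kp pl vn cont cj cj_cj pl_mul pl_cj pl_swap pl_self cont_pos fin_cont)
open Pool.Agent.K1H88.DF (EmbU deg Distinct Same InSlab wt pl_lin cjU sum_emb prod_emb smul_at
  same_lin same_mul same_of_common)

lemma prod_cont (hFIN : DP.S_FIN) {ι : Type} [Fintype ι] (E : ι → Type) [∀ k, Field (E k)]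
    [∀ k, NumberField (E k)] (a : ι → ℕ) {x y : ∀ k, E k} (h : ∀ k, x k ≠ 0 ∨ y k ≠ 0) :
    ∏ k, cont (E k) (x k) (y k) ^ a k =
      ∏ᶠ p : Nat.Primes, ∏ i : DP.Emb E (Kp p), vn E x y i ^ a i.1 := by
  have h1 : ∀ k, cont (E k) (x k) (y k) ^ a k =
      ∏ᶠ p : Nat.Primes, (∏ σ : E k →+* Kp p, max ‖σ (x k)‖ ‖σ (y k)‖) ^ a k := by
    intro k
    unfold DP.cont
    exact finprod_pow (fin_cont hFIN (E k) (h k)) _
  rw [Finset.prod_congr rfl fun k _ => h1 k, ← finprod_prod_comm]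
  · apply finprod_congr
    intro p
    rw [Fintype.prod_sigma]
    refine Finset.prod_congr rfl fun k _ => ?_
    rw [← Finset.prod_pow]
    rfl
  · intro k _
    refine (fin_cont hFIN (E k) (h k)).subset ?_
    intro p hp hp2
    apply hp
    have h3 : (∏ σ : E k →+* Kp p, max ‖σ (x k)‖ ‖σ (y k)‖) = 1 := hp2
    show (∏ σ : E k →+* Kp p, max ‖σ (x k)‖ ‖σ (y k)‖) ^ a k = 1
    rw [h3, one_pow]

variable {F : Type} [Field F] [NumberField F] {ι : Type} [Fintype ι] {E : ι → Type}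
  [∀ k, Field (E k)] [∀ k, NumberField (E k)] [∀ k, Algebra F (E k)] {a : ι → ℕ}

/-- The normalisation at the coordinates with `x k = 0`: there `y k = 1`. -/
lemma normalise {B T : ℝ} {x y : ∀ k, E k} (hd : 3 ≤ deg F E)
    (hint : ∀ k, IsIntegral ℤ (x k) ∧ IsIntegral ℤ (y k)) (hdis : Distinct F E x y)
    {ρ : ι → ℝ} {μ : ℝ} {i₀ : ∀ u : F →+* ℂ, EmbU F E u} (hρ : ∀ k, 0 < ρ k) (hμ : 0 < μ)
    (hμB : μ ≤ B) (hT : ∏ k, ρ k ^ (a k * finrank ℚ (E k)) ≤ T)
    (h1 : ∀ i : DP.Emb E ℂ, ‖i.2 (x i.1)‖ ≤ μ * ρ i.1)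
    (h2 : ∀ i : DP.Emb E ℂ, ‖i.2 (y i.1)‖ ≤ B * ρ i.1 / μ) (h3 : InSlab F E x y B i₀) :
    ∃ e : ∀ k, E k, (∀ k, e k ≠ 0) ∧ (e * x, e * y) ∈ Fam F E a B T := by
  classical
  have hne := hdis.ne K1H45.DF.t_CARD hd
  have he : ∀ k, (if x k = 0 then (y k)⁻¹ else 1) ≠ 0 := by
    intro k
    split_ifs with hk
    · exact inv_ne_zero ((hne k).resolve_left (by simpa using hk))
    · exact one_ne_zero
  set e : ∀ k, E k := fun k => if x k = 0 then (y k)⁻¹ else 1 with hedef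
  have e0 : ∀ k, x k = 0 → (e * x) k = 0 ∧ (e * y) k = 1 := by
    intro k hk
    have hy := (hne k).resolve_left (by simpa using hk)
    simp [hedef, hk, hy]
  have e1 : ∀ k, x k ≠ 0 → (e * x) k = x k ∧ (e * y) k = y k := by
    intro k hk
    simp [hedef, hk]
  refine ⟨e, he, fun k => ?_, hdis.mul he, fun k hk => ?_, ρ, μ, i₀, hρ, hμ, hμB, hT, fun i => ?_,
    fun i => ?_, fun u => ?_⟩
  · by_cases hk : x k = 0
    · simp only [(e0 k hk).1, (e0 k hk).2]
      exact ⟨isIntegral_zero, isIntegral_one⟩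
    · simp only [(e1 k hk).1, (e1 k hk).2]
      exact hint k
  · by_cases hk' : x k = 0
    · exact (e0 k hk').2
    · simp only [(e1 k hk').1] at hk
      exact absurd hk hk'
  · by_cases hk : x i.1 = 0
    · simp only [(e0 _ hk).1, map_zero, norm_zero]
      have := hρ i.1
      positivity
    · simp only [(e1 _ hk).1]
      exact h1 i
  · by_cases hk : x i.1 = 0
    · simp only [(e0 _ hk).2, map_one, norm_one]
      have hy := (hne i.1).resolve_left (by simpa using hk)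
      have h4 : (⟨y i.1, (hint i.1).2⟩ : 𝓞 (E i.1)) ≠ 0 := fun h => hy (congrArg Subtype.val h)
      obtain ⟨σ, hσ⟩ := NumberField.exists_conjugate_one_le_norm (K := E i.1) h4
      exact le_trans hσ (h2 ⟨i.1, σ⟩)
    · simp only [(e1 _ hk).2]
      exact h2 i
  · have g : ∀ v : F →+* ℂ, (e * x) (i₀ v).1.1 = x (i₀ v).1.1 ∧
        (e * y) (i₀ v).1.1 = y (i₀ v).1.1 := by
      intro v
      apply e1
      intro hk
      apply (h3 v).1
      rw [hk, map_zero]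
    have h5 := h3 u
    unfold wt at h5 ⊢
    simp only [(g u).1, (g u).2, (g (ComplexEmbedding.conjugate u)).1,
      (g (ComplexEmbedding.conjugate u)).2]
    exact h5

lemma three_le_tot (ha : ∀ k, 1 ≤ a k) (hd : 3 ≤ deg F E) : 3 ≤ tot F E a := by
  refine hd.trans ?_
  unfold deg tot
  exact Finset.sum_le_sum fun k _ => Nat.le_mul_of_pos_left _ (ha k)

/-- Every point has a reduced representative. -/
theorem reduced (hMIN : S_MIN) (hINV : S_INV)
    (hFIN : DP.S_FIN) (hIDEAL : DP.S_IDEAL) (hSCALE : DP.S_SCALE) (hRED : DF.S_RED)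
    (hd : 3 ≤ deg F E) (ha : ∀ k, 1 ≤ a k) (hbig : ∀ k, 2 * a k < tot F E a) :
    ∃ B C : ℝ, 1 ≤ B ∧ 1 ≤ C ∧
      ∀ (T : ℝ) (P : (∀ k, E k) × (∀ k, E k)), Distinct F E P.1 P.2 → ht F E a P.1 P.2 ≤ T →
        ∃ Q ∈ Fam F E a B (C * T), Same F E P Q := by
  classical
  have h3t : 3 ≤ tot F E a := three_le_tot ha hd
  obtain ⟨c₀, hc₀, hmin⟩ := hMIN F ι E a hd ha hbig
  choose D hD1 hD using fun k => hSCALE (E k)
  set D' : ℝ := 1 + ∑ k, D k with hD'
  have hDle : ∀ k, D k ≤ D' := by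
    intro k
    have : D k ≤ ∑ k, D k := Finset.single_le_sum (f := D) (fun k _ => by linarith [hD1 k])
      (Finset.mem_univ k)
    linarith
  have hD'1 : 1 ≤ D' := by
    have : 0 ≤ ∑ k, D k := Finset.sum_nonneg fun k _ => by linarith [hD1 k]
    linarith
  obtain ⟨B', hB', hred⟩ := hRED F (D' ^ 2) (one_le_pow₀ hD'1)
  refine ⟨B', max 1 (√(1 / c₀)), hB', le_max_left _ _, ?_⟩
  intro T P hP hT
  obtain ⟨a', b', c', d', hdet, hm⟩ := hmin P.1 P.2 hP
  have hP1 : Distinct F E (a' • P.1 + b' • P.2) (c' • P.1 + d' • P.2) := hP.lin hdet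
  have hht := hINV F ι E a P.1 P.2 hP hd ha hbig a' b' c' d' hdet
  set x : ∀ k, E k := a' • P.1 + b' • P.2 with hx
  set y : ∀ k, E k := c' • P.1 + d' • P.2 with hy
  have hne := hP1.ne K1H45.DF.t_CARD hd
  obtain ⟨r, hr0, hrc, hrp, hrA⟩ := dual_inf F E hP1 ha hbig h3t
  have hcp : ∀ k, 0 < cont (E k) (x k) (y k) := fun k => cont_pos hIDEAL (E k) (hne k)
  choose e he0 hex hey her hec using fun k => hD k (x k) (y k) (hne k) (fun σ => r ⟨k, σ⟩)
    (fun σ => hr0 _) (fun σ => hrc ⟨k, σ⟩)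
  have hn : ∀ k, finrank ℚ (E k) ≠ 0 := fun k => finrank_pos.ne'
  set ρ : ι → ℝ := fun k => (cont (E k) (x k) (y k) * ∏ σ, r ⟨k, σ⟩) ^
    (1 / (finrank ℚ (E k) : ℝ)) with hρ
  have hbase : ∀ k, 0 < cont (E k) (x k) (y k) * ∏ σ : E k →+* ℂ, r ⟨k, σ⟩ := fun k =>
    mul_pos (hcp k) (Finset.prod_pos fun σ _ => hr0 _)
  have hρ0 : ∀ k, 0 < ρ k := fun k => Real.rpow_pos_of_pos (hbase k) _
  have hρn : ∀ k, ρ k ^ finrank ℚ (E k) = cont (E k) (x k) (y k) * ∏ σ, r ⟨k, σ⟩ := by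
    intro k
    simp only [hρ, one_div]
    exact Real.rpow_inv_natCast_pow (hbase k).le (hn k)
  have hse : ∀ i : DP.Emb E ℂ, ‖i.2 (e i.1)‖ * r i ≤ D' * ρ i.1 := by
    intro i
    have h1 := her i.1 i.2
    rw [← hρn, ← mul_pow] at h1
    have h2 := le_of_pow_le_pow_left₀ (hn i.1)
      (mul_nonneg (by linarith [hD1 i.1]) (hρ0 i.1).le) h1
    exact h2.trans (mul_le_mul_of_nonneg_right (hDle _) (hρ0 _).le)
  have hP2 : Distinct F E (e * x) (e * y) := hP1.mul he0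
  have hpl : ∀ (u : F →+* ℂ) (i j : EmbU F E u),
      ‖pl E (e * x) (e * y) i.1 j.1‖ ≤ D' ^ 2 * (ρ i.1.1 * ρ j.1.1) := by
    intro u i j
    rw [pl_mul, norm_mul, norm_mul]
    calc ‖i.1.2 (e i.1.1)‖ * ‖j.1.2 (e j.1.1)‖ * ‖pl E x y i.1 j.1‖
        ≤ ‖i.1.2 (e i.1.1)‖ * ‖j.1.2 (e j.1.1)‖ * (r i.1 * r j.1) :=
          mul_le_mul_of_nonneg_left (hrp u i j) (by positivity)
      _ = (‖i.1.2 (e i.1.1)‖ * r i.1) * (‖j.1.2 (e j.1.1)‖ * r j.1) := by ring
      _ ≤ (D' * ρ i.1.1) * (D' * ρ j.1.1) := mul_le_mul (hse i.1) (hse j.1)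
          (mul_nonneg (norm_nonneg _) (hr0 _).le) (mul_nonneg (by linarith) (hρ0 _).le)
      _ = _ := by ring
  obtain ⟨α, β, γ, δ, μ, i₀, ia, ib, ic, id', hdet', hμ0, hμB, h1, h2, h3⟩ :=
    hred ι E (e * x) (e * y) ρ hd hP2 (fun k => ⟨hex k, hey k⟩) hρ0 hpl
  have hP3 : Distinct F E (α • (e * x) + β • (e * y)) (γ • (e * x) + δ • (e * y)) :=
    hP2.lin hdet'
  have hint : ∀ k, IsIntegral ℤ ((α • (e * x) + β • (e * y)) k) ∧
      IsIntegral ℤ ((γ • (e * x) + δ • (e * y)) k) := by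
    intro k
    have hk : ∀ s : F, IsIntegral ℤ s → IsIntegral ℤ (algebraMap F (E k) s) := fun s hs =>
      hs.map (algebraMap F (E k)).toIntAlgHom
    simp only [Pi.add_apply, smul_at]
    exact ⟨((hk _ ia).mul (hex k)).add ((hk _ ib).mul (hey k)),
      ((hk _ ic).mul (hex k)).add ((hk _ id').mul (hey k))⟩
  have hprod : ∏ k, ρ k ^ (a k * finrank ℚ (E k)) ≤ max 1 (√(1 / c₀)) * T := by
    have g1 : ∏ k, ρ k ^ (a k * finrank ℚ (E k)) =
        (∏ k, cont (E k) (x k) (y k) ^ a k) * ∏ i : DP.Emb E ℂ, r i ^ a i.1 := by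
      rw [Fintype.prod_sigma, ← Finset.prod_mul_distrib]
      refine Finset.prod_congr rfl fun k _ => ?_
      rw [mul_comm (a k), pow_mul, hρn, mul_pow, ← Finset.prod_pow]
    rw [g1, prod_cont hFIN E a hne]
    set X : ℝ := ∏ᶠ p : Nat.Primes, ∏ i : DP.Emb E (Kp p), vn E x y i ^ a i.1 with hX
    set Y : ℝ := ∏ i : DP.Emb E ℂ, r i ^ a i.1 with hY
    have hX0 : 0 ≤ X := finprod_nonneg fun p => Finset.prod_nonneg fun i _ =>
      pow_nonneg (le_max_of_le_left (norm_nonneg _)) _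
    have hY0 : 0 ≤ Y := Finset.prod_nonneg fun i _ => pow_nonneg (hr0 i).le _
    have g2 : 0 ≤ ∏ᶠ p : Nat.Primes, ∏ u : F →+* Kp p, loc F E a u x y :=
      finprod_nonneg fun p => Finset.prod_nonneg fun u _ => by
        unfold loc
        exact Real.iSup_nonneg fun π => Finset.prod_nonneg fun i _ => norm_nonneg _
    have g3 : ht F E a x y ≤ T := hht.trans_le hT
    have g4 : c₀ * (X ^ 2 * Y ^ 2) ≤ (∏ u : F →+* ℂ, loc F E a u x y) *
        ∏ᶠ p : Nat.Primes, ∏ u : F →+* Kp p, loc F E a u x y := by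
      calc _ = (c₀ * X ^ 2) * Y ^ 2 := by ring
        _ ≤ (∏ᶠ p : Nat.Primes, ∏ u : F →+* Kp p, loc F E a u x y) *
            ∏ u : F →+* ℂ, loc F E a u x y :=
            mul_le_mul hm hrA (by positivity) g2
        _ = _ := by ring
    have g5 : X * Y ≤ √(1 / c₀) * ht F E a x y := by
      unfold ht
      rw [← Real.sqrt_mul (by positivity)]
      apply Real.le_sqrt_of_sq_le
      rw [mul_pow, div_mul_eq_mul_div, one_mul, le_div_iff₀ hc₀, mul_comm]
      exact g4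
    have g6 : 0 ≤ ht F E a x y := Real.sqrt_nonneg _
    calc X * Y ≤ √(1 / c₀) * ht F E a x y := g5
      _ ≤ max 1 (√(1 / c₀)) * ht F E a x y :=
          mul_le_mul_of_nonneg_right (le_max_right _ _) g6
      _ ≤ max 1 (√(1 / c₀)) * T := mul_le_mul_of_nonneg_left g3 (by positivity)
  obtain ⟨f, hf0, hf⟩ := normalise hd hint hP3 hρ0 hμ0 hμB hprod h1 h2 h3
  refine ⟨_, hf, ?_⟩
  have s1 : Same F E P (x, y) := same_lin F E P a' b' c' d' hdet
  have s2 : Same F E (x, y) (e * x, e * y) := same_mul F E (x, y) e he0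
  have s3 := same_lin F E (e * x, e * y) α β γ δ hdet'
  have s4 := same_mul F E (α • (e * x) + β • (e * y), γ • (e * x) + δ • (e * y)) f hf0
  exact ((s1.trans F E s2).trans F E s3).trans F E s4

/-- the infimum in the definition of the Fujita invariant is attained -/
theorem fuj_mem (hd : 3 ≤ deg F E) (ha : ∀ k, 1 ≤ a k) (hbig : ∀ k, 2 * a k < tot F E a) :
    ∀ k, 0 ≤ fuj F E a * a k - 2 ∧ 2 * (fuj F E a * a k - 2) ≤
      ∑ j, (finrank F (E j) : ℝ) * (fuj F E a * a j - 2) := by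
  have hne : Nonempty ι := by
    by_contra hcon
    rw [not_nonempty_iff] at hcon
    unfold deg at hd
    rw [Finset.univ_eq_empty, Finset.sum_empty] at hd
    omega
  have hsum : ∀ t : ℝ, ∑ j, (finrank F (E j) : ℝ) * (t * a j - 2) =
      t * tot F E a - 2 * deg F E := by
    intro t
    unfold tot deg
    push_cast
    rw [Finset.mul_sum, Finset.mul_sum, ← Finset.sum_sub_distrib]
    exact Finset.sum_congr rfl fun j _ => by ring
  have ha' : ∀ k, (1 : ℝ) ≤ a k := fun k => by exact_mod_cast ha k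
  have hbig' : ∀ k, 2 * (a k : ℝ) + 1 ≤ tot F E a := fun k => by exact_mod_cast hbig k
  have hmem : sInf {t : ℝ | ∀ k, 0 ≤ t * a k - 2 ∧
      2 * (t * a k - 2) ≤ ∑ j, (finrank F (E j) : ℝ) * (t * a j - 2)} ∈
      {t : ℝ | ∀ k, 0 ≤ t * a k - 2 ∧
      2 * (t * a k - 2) ≤ ∑ j, (finrank F (E j) : ℝ) * (t * a j - 2)} := by
    apply IsClosed.csInf_mem
    · have : {t : ℝ | ∀ k, 0 ≤ t * a k - 2 ∧
          2 * (t * a k - 2) ≤ ∑ j, (finrank F (E j) : ℝ) * (t * a j - 2)} =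
          ⋂ k, ({t : ℝ | 0 ≤ t * a k - 2} ∩ {t : ℝ | 2 * (t * a k - 2) ≤
            ∑ j, (finrank F (E j) : ℝ) * (t * a j - 2)}) := by
        ext t
        simp
      rw [this]
      refine isClosed_iInter fun k => IsClosed.inter ?_ ?_
      · exact isClosed_le continuous_const (by fun_prop)
      · exact isClosed_le (by fun_prop) (by fun_prop)
    · refine ⟨2 * deg F E + 2, fun k => ⟨?_, ?_⟩⟩
      · have h1 : (0 : ℝ) ≤ deg F E := Nat.cast_nonneg _
        nlinarith [ha' k]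
      · rw [hsum]
        have h1 : (0 : ℝ) ≤ deg F E := Nat.cast_nonneg _
        nlinarith [ha' k, hbig' k]
    · refine ⟨0, fun t ht => ?_⟩
      obtain ⟨k⟩ := hne
      have h1 := (ht k).1
      have h2 := ha' k
      by_contra hcon
      push Not at hcon
      nlinarith
  exact hmem

/-- The final count. -/
theorem count (hMIN : S_MIN) (hINV : S_INV)
    (hFIN : DP.S_FIN) (hIDEAL : DP.S_IDEAL) (hSCALE : DP.S_SCALE) (hRED : DF.S_RED)
    (hTOT : S_TOT) (hd : 3 ≤ deg F E) (ha : ∀ k, 1 ≤ a k)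
    (hbig : ∀ k, 2 * a k < tot F E a) : ∃ C : ℝ, ∀ T : ℝ, 2 ≤ T →
      ∀ A : Set ((∀ k, E k) × (∀ k, E k)),
        (∀ P ∈ A, Distinct F E P.1 P.2 ∧ ht F E a P.1 P.2 ≤ T) →
        (∀ P ∈ A, ∀ Q ∈ A, Same F E P Q → P = Q) →
        A.Finite ∧ (A.ncard : ℝ) ≤ C * T ^ fuj F E a * Real.log T ^ (Fintype.card ι - 1) := by
  classical
  obtain ⟨B, C₁, hB, hC₁, h⟩ := reduced hMIN hINV hFIN hIDEAL hSCALE hRED hd ha hbig
  have hfuj := fuj_mem hd ha hbig
  have hsum : ∑ j, (finrank F (E j) : ℝ) * (fuj F E a * a j - 2) =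
      fuj F E a * tot F E a - 2 * deg F E := by
    unfold tot deg
    push_cast
    rw [Finset.mul_sum, Finset.mul_sum, ← Finset.sum_sub_distrib]
    exact Finset.sum_congr rfl fun j _ => by ring
  obtain ⟨C₂, hC₂, h2⟩ := hTOT F ι E a B (fuj F E a) hd hB ha hbig
    (fun k => by linarith [(hfuj k).1]) (fun k => by
      have := (hfuj k).2
      rw [hsum] at this
      linarith)
  set L : ℝ := 1 + Real.log C₁ / Real.log 2 with hL
  have hlog2 : 0 < Real.log 2 := Real.log_pos (by norm_num)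
  have hL1 : 0 ≤ L := by
    have := Real.log_nonneg hC₁
    positivity
  refine ⟨C₂ * C₁ ^ fuj F E a * L ^ (Fintype.card ι - 1), fun T hT A hA hinj => ?_⟩
  have hCT : 2 ≤ C₁ * T := by nlinarith
  obtain ⟨hfin, hcard⟩ := h2 (C₁ * T) hCT
  choose! f hf hs using fun (P : (∀ k, E k) × (∀ k, E k)) (hP : P ∈ A) =>
    h T P (hA P hP).1 (hA P hP).2
  have hinj' : Set.InjOn f A := by
    intro P hP Q hQ hPQ
    exact hinj P hP Q hQ (same_of_common F E (hs P hP) (hPQ ▸ hs Q hQ))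
  have hmaps : Set.MapsTo f A (Fam F E a B (C₁ * T)) := fun P hP => hf P hP
  refine ⟨Set.Finite.of_injOn hmaps hinj' hfin, ?_⟩
  have h3 : A.ncard ≤ (Fam F E a B (C₁ * T)).ncard :=
    Set.ncard_le_ncard_of_injOn f hmaps hinj' hfin
  have hT0 : 0 < T := by linarith
  have hC0 : 0 < C₁ := by linarith
  have h4 : Real.log (C₁ * T) ≤ L * Real.log T := by
    rw [Real.log_mul hC0.ne' hT0.ne', hL]
    have h5 : Real.log 2 ≤ Real.log T := Real.log_le_log (by norm_num) hT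
    have h6 : Real.log C₁ ≤ Real.log C₁ / Real.log 2 * Real.log T := by
      rw [div_mul_eq_mul_div, le_div_iff₀ hlog2]
      exact mul_le_mul_of_nonneg_left h5 (Real.log_nonneg hC₁)
    linarith
  have h5 : 0 ≤ Real.log (C₁ * T) := Real.log_nonneg (by linarith)
  calc (A.ncard : ℝ) ≤ ((Fam F E a B (C₁ * T)).ncard : ℝ) := by exact_mod_cast h3
    _ ≤ C₂ * (C₁ * T) ^ fuj F E a * Real.log (C₁ * T) ^ (Fintype.card ι - 1) := hcard
    _ ≤ C₂ * (C₁ * T) ^ fuj F E a * (L * Real.log T) ^ (Fintype.card ι - 1) := by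
        apply mul_le_mul_of_nonneg_left (pow_le_pow_left₀ h5 h4 _)
        positivity
    _ = _ := by rw [mul_pow, Real.mul_rpow hC0.le hT0.le]; ring

end Pool.Agent.K1H88.DW
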