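import Pool.Agent.K1H88.DF.Defs

/-!
# Heights for all line bundles on the forms of `(ℙ¹)ⁿ // SL₂`

`a k ≥ 1`: weights. The invariants of degree `2 a k` in the points belonging to `E k` are generated
by the products of `σ(x) τ(y) - τ(x) σ(y)`.
-/

set_option autoImplicit false

namespace Pool.Agent.K1H88.DW

open Pool.Agent.K1H88.DP (Kp pl)
open Pool.Agent.K1H88.DF (EmbU deg)

variable (F : Type) [Field F] [NumberField F] {ι : Type} [Fintype ι] (E : ι → Type)
  [∀ k, Field (E k)] [∀ k, NumberField (E k)] [∀ k, Algebra F (E k)] (a : ι → ℕ)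

/-- `a k` copies of every embedding of `E k` above the embedding `u` of `F` -/
abbrev Cop {K : Type} [Field K] (u : F →+* K) : Type := Σ i : EmbU F E u, Fin (a i.1.1)

/-- The local factor at the embedding `u` of `F`: the maximum, over all permutations `π` of the
copies, of the product of all `‖σ(x) τ(y) - τ(x) σ(y)‖`, where `s` is a copy of `σ` and `π s` a copy
of `τ`. -/
noncomputable def loc {K : Type} [NormedField K] [CharZero K] (u : F →+* K) (x y : ∀ k, E k) : ℝ :=
  ⨆ π : Equiv.Perm (Cop F E a u), ∏ s, ‖pl E x y s.1.1 (π s).1.1‖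

/-- The height for the line bundle with the weights `a`: the square root of the product of the
local factors at all embeddings of `F` into the complex numbers and into the algebraic closures of
the fields of `p`-adic numbers, for all primes `p`. -/
noncomputable def ht (x y : ∀ k, E k) : ℝ :=
  √((∏ u : F →+* ℂ, loc F E a u x y) * ∏ᶠ p : Nat.Primes, ∏ u : F →+* Kp p, loc F E a u x y)

/-- the total weight -/
noncomputable def tot : ℕ := ∑ k, a k * Module.finrank F (E k)

/-- The Fujita invariant: the smallest `t` such that `t a - (2, …, 2)` lies in the cone of all `c`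
with `0 ≤ c k` and `2 (c k) ≤ ∑ [E j : F] (c j)` for all `k`. -/
noncomputable def fuj : ℝ := sInf {t : ℝ | ∀ k, 0 ≤ t * a k - 2 ∧
  2 * (t * a k - 2) ≤ ∑ j, (Module.finrank F (E j) : ℝ) * (t * a j - 2)}

end Pool.Agent.K1H88.DW
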