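import Pool.Agent.K1H88.DW.Asm2
import Pool.Agent.K1H88.DF.Final
import Pool.Agent.K1H33.DW.Rat
import Pool.Agent.K1H31.DW.Min
import Pool.Agent.K1H59.DW.Sum
import Pool.Agent.K1H68.DW.Tot

/-! Project DW: the final theorem. -/

set_option autoImplicit false

namespace Pool.Agent.K1H88.DW

open Pool.Agent.K1H88.DF (deg Distinct Same)

theorem final (F : Type) [Field F] [NumberField F] {ι : Type} [Fintype ι] (E : ι → Type)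
    [∀ k, Field (E k)] [∀ k, NumberField (E k)] [∀ k, Algebra F (E k)] (a : ι → ℕ)
    (hd : 3 ≤ deg F E) (ha : ∀ k, 1 ≤ a k) (hbig : ∀ k, 2 * a k < tot F E a) :
    ∃ C : ℝ, ∀ T : ℝ, 2 ≤ T → ∀ A : Set ((∀ k, E k) × (∀ k, E k)),
      (∀ P ∈ A, Distinct F E P.1 P.2 ∧ ht F E a P.1 P.2 ≤ T) →
      (∀ P ∈ A, ∀ Q ∈ A, Same F E P Q → P = Q) →
      A.Finite ∧ (A.ncard : ℝ) ≤ C * T ^ fuj F E a * Real.log T ^ (Fintype.card ι - 1) :=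
  count (K1H31.DW.t_MIN K1H1.DP.t_HALL K1H10.DP.t_FIN K1H96.DP.Unr.t_UNR K1H45.DF.t_CARD
      K1H10.DF.t_TRANS K1H26.DF.t_CONJ DF.c_elt (K1H33.DW.t_RAT K1H39.DF.t_APX))
    (t_INV K1H10.DF.t_TRANS K1H45.DF.t_PF) K1H10.DP.t_FIN K1H89.DP.t_IDEAL
    (K1H59.DP.t_SCALE K1H89.DP.t_IDEAL) DF.c_red (K1H68.DW.t_TOT DF.c_slab K1H59.DW.t_SUM)
    hd ha hbig

end Pool.Agent.K1H88.DW
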