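import Pool.Agent.K1H88.DW.Defs
import Pool.Agent.K1H88.DF.Stm

/-! The pieces of project DW (the theorem of project DF for all line bundles). -/

set_option autoImplicit false

namespace Pool.Agent.K1H88.DW

open Module NumberField
open Pool.Agent.K1H88.DP (Kp pl vn cont)
open Pool.Agent.K1H88.DF (EmbU deg Distinct InSlab)

/-- RAT: a cluster with more than half of the total weight contains a point of `F`. -/
def S_RAT : Prop := ∀ (F : Type) [Field F] [NumberField F] (ι : Type) [Fintype ι] (E : ι → Type)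
  [∀ k, Field (E k)] [∀ k, NumberField (E k)] [∀ k, Algebra F (E k)] (a : ι → ℕ)
  (p : Nat.Primes) (u : F →+* Kp p) (x y : ∀ k, E k) (κ ε : ℝ) (S : Finset (EmbU F E u)),
  (∀ i : EmbU F E u, vn E x y i.1 ≠ 0) → ∑ i : EmbU F E u, a i.1.1 < 2 * ∑ i ∈ S, a i.1.1 →
  (∀ i ∈ S, ∀ j, j ∈ S ↔ ‖pl E x y i.1 j.1‖ ≤ κ * (vn E x y i.1 * vn E x y j.1)) →
  0 < ε → ε < 1 → κ ≤ ‖((S.card : ℕ) : Kp p)‖ * ε →
  ∃ m : F, IsIntegral ℤ m ∧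
    ((∀ i ∈ S, ‖i.1.2 (x i.1.1) - u m * i.1.2 (y i.1.1)‖ ≤ ε * vn E x y i.1) ∨
      (∀ i ∈ S, ‖i.1.2 (y i.1.1) - u m * i.1.2 (x i.1.1)‖ ≤ ε * vn E x y i.1))

/-- MIN: every point has a model which is nearly semistable at all primes. -/
def S_MIN : Prop := ∀ (F : Type) [Field F] [NumberField F] (ι : Type) [Fintype ι] (E : ι → Type)
  [∀ k, Field (E k)] [∀ k, NumberField (E k)] [∀ k, Algebra F (E k)] (a : ι → ℕ),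
  3 ≤ deg F E → (∀ k, 1 ≤ a k) → (∀ k, 2 * a k < tot F E a) → ∃ c₀ : ℝ, 0 < c₀ ∧
    ∀ x y : ∀ k, E k, Distinct F E x y → ∃ a' b' c' d' : F, a' * d' - b' * c' ≠ 0 ∧
      c₀ * (∏ᶠ p : Nat.Primes, ∏ i : DP.Emb E (Kp p),
          vn E (a' • x + b' • y) (c' • x + d' • y) i ^ a i.1) ^ 2 ≤
        ∏ᶠ p : Nat.Primes, ∏ u : F →+* Kp p, loc F E a u (a' • x + b' • y) (c' • x + d' • y)

/-- INV: the height is invariant under `GL₂(F)`. -/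
def S_INV : Prop := ∀ (F : Type) [Field F] [NumberField F] (ι : Type) [Fintype ι] (E : ι → Type)
  [∀ k, Field (E k)] [∀ k, NumberField (E k)] [∀ k, Algebra F (E k)] (a : ι → ℕ)
  (x y : ∀ k, E k), Distinct F E x y → 3 ≤ deg F E → (∀ k, 1 ≤ a k) →
  (∀ k, 2 * a k < tot F E a) → ∀ a' b' c' d' : F, a' * d' - b' * c' ≠ 0 →
    ht F E a (a' • x + b' • y) (c' • x + d' • y) = ht F E a x y

/-- SUM: sum over dyadic boxes. -/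
def S_SUM : Prop := ∀ (ι : Type) [Fintype ι] (J : Finset ι) (w : ι → ℕ) (c : ℕ) (α : ℝ),
  J.Nonempty → (∀ k, 1 ≤ w k) → 0 < α → ∃ C : ℝ, 0 < C ∧ ∀ L : ℝ, 1 ≤ L →
    {t : ι → ℤ | (∀ k, k ∉ J → t k = 0) ∧ (∀ k ∈ J, -(c : ℤ) ≤ t k) ∧
      ((∑ k ∈ J, w k * t k : ℤ) : ℝ) ≤ L}.Finite ∧
    ∀ A : Finset (ι → ℤ), (∀ t ∈ A, (∀ k, k ∉ J → t k = 0) ∧ (∀ k ∈ J, -(c : ℤ) ≤ t k) ∧
      ((∑ k ∈ J, w k * t k : ℤ) : ℝ) ≤ L) →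
      ∑ t ∈ A, (2 : ℝ) ^ (α * ((∑ k ∈ J, w k * t k : ℤ) : ℝ)) ≤
        C * (2 : ℝ) ^ (α * L) * L ^ (J.card - 1)

section
variable (F : Type) [Field F] [NumberField F] {ι : Type} [Fintype ι] (E : ι → Type)
  [∀ k, Field (E k)] [∀ k, NumberField (E k)] [∀ k, Algebra F (E k)] (a : ι → ℕ)

/-- all reduced pairs of height at most `T` -/
def Fam (B T : ℝ) : Set ((∀ k, E k) × (∀ k, E k)) :=
  {P | (∀ k, IsIntegral ℤ (P.1 k) ∧ IsIntegral ℤ (P.2 k)) ∧ Distinct F E P.1 P.2 ∧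
    (∀ k, P.1 k = 0 → P.2 k = 1) ∧
    ∃ (ρ : ι → ℝ) (μ : ℝ) (i₀ : ∀ u : F →+* ℂ, EmbU F E u), (∀ k, 0 < ρ k) ∧ 0 < μ ∧ μ ≤ B ∧
      ∏ k, ρ k ^ (a k * finrank ℚ (E k)) ≤ T ∧
      (∀ i : DP.Emb E ℂ, ‖i.2 (P.1 i.1)‖ ≤ μ * ρ i.1) ∧
      (∀ i : DP.Emb E ℂ, ‖i.2 (P.2 i.1)‖ ≤ B * ρ i.1 / μ) ∧
      InSlab F E P.1 P.2 B i₀}

end

/-- TOT: the number of all reduced pairs of height at most `T`. -/
def S_TOT : Prop := ∀ (F : Type) [Field F] [NumberField F] (ι : Type) [Fintype ι] (E : ι → Type)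
  [∀ k, Field (E k)] [∀ k, NumberField (E k)] [∀ k, Algebra F (E k)] (a : ι → ℕ) (B α : ℝ),
  3 ≤ deg F E → 1 ≤ B → (∀ k, 1 ≤ a k) → (∀ k, 2 * a k < tot F E a) → (∀ k, 2 ≤ α * a k) →
  (∀ k, 2 * (deg F E : ℝ) - 4 ≤ α * (tot F E a - 2 * a k)) →
  ∃ C : ℝ, 0 < C ∧ ∀ T : ℝ, 2 ≤ T → (Fam F E a B T).Finite ∧
    ((Fam F E a B T).ncard : ℝ) ≤ C * T ^ α * Real.log T ^ (Fintype.card ι - 1)

end Pool.Agent.K1H88.DW
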